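import Pool.Agent.W326.DU.Stm

set_option autoImplicit false

namespace Pool.Agent.W326.DU

theorem aug_th : PropAUG := by
  intro G _ X hX x hx
  have hsub : ∀ g : G, MonoidAlgebra.of ℤ G g - 1 ∈ IL ℤ X := by
    intro g
    have hg : g ∈ Subgroup.closure X := by rw [hX]; trivial
    induction hg using Subgroup.closure_induction with
    | mem g hg => exact Submodule.subset_span ⟨g, hg, rfl⟩
    | one => rw [map_one, sub_self]; exact zero_mem _
    | mul g h _ _ h1 h2 =>
      have : MonoidAlgebra.of ℤ G (g * h) - 1
          = MonoidAlgebra.of ℤ G g • (MonoidAlgebra.of ℤ G h - 1) + (MonoidAlgebra.of ℤ G g - 1) := by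
        rw [map_mul, smul_eq_mul]; noncomm_ring
      rw [this]
      exact add_mem (Submodule.smul_mem _ _ h2) h1
    | inv g _ h =>
      have : MonoidAlgebra.of ℤ G g⁻¹ - 1
          = -(MonoidAlgebra.of ℤ G g⁻¹ • (MonoidAlgebra.of ℤ G g - 1)) := by
        rw [smul_eq_mul, mul_sub, ← map_mul, inv_mul_cancel, map_one, mul_one]; abel
      rw [this]
      exact neg_mem (Submodule.smul_mem _ _ h)
  have key : ∀ y : ZG G, y - (augm G y) • (1 : ZG G) ∈ IL ℤ X := by
    intro y
    induction y using MonoidAlgebra.induction_on with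
    | of g =>
      have : augm G (MonoidAlgebra.of ℤ G g) = 1 := by simp [augm]
      rw [this, one_smul]; exact hsub g
    | add a b ha hb =>
      rw [map_add, add_smul]
      have : a + b - (augm G a • (1 : ZG G) + augm G b • (1 : ZG G))
        = (a - augm G a • (1 : ZG G)) + (b - augm G b • (1 : ZG G)) := by abel
      rw [this]; exact add_mem ha hb
    | smul r a ha =>
      have h1 : augm G (r • a) = r • augm G a := map_zsmul _ _ _
      rw [h1, smul_assoc, ← smul_sub]
      exact zsmul_mem ha r
  have := key x
  rw [hx, zero_smul, sub_zero] at this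
  exact this

end Pool.Agent.W326.DU
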