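import Pool.Agent.W326.DU.Stm

/-! # Assembly of S02505 from the parts -/

set_option autoImplicit false

namespace Pool.Agent.W326.DU

/-- In a free abelian group an element divisible by all powers of two vanishes. -/
theorem free_div {Q : Type} [AddCommGroup Q] [Module.Free ℤ Q] (q : ℕ → Q)
    (h : ∀ j, q j = 2 • q (j + 1)) : q 0 = 0 := by
  have hj : ∀ j, q 0 = (2 ^ j : ℕ) • q j := by
    intro j
    induction j with
    | zero => simp
    | succ j ih => rw [ih, h j, smul_smul, pow_succ]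
  set b := Module.Free.chooseBasis ℤ Q
  apply b.repr.injective
  rw [map_zero]
  ext i
  by_contra hne
  have hne' : b.repr (q 0) i ≠ 0 := by simpa using hne
  -- divisible by all powers of two
  have hdvd : ∀ j : ℕ, ((2 : ℤ) ^ j) ∣ b.repr (q 0) i := by
    intro j
    rw [hj j]
    refine ⟨b.repr (q j) i, ?_⟩
    rw [map_nsmul]
    simp
  have := hdvd (b.repr (q 0) i).natAbs
  have h1 := Int.natAbs_dvd_natAbs.mpr this
  have h2 := Nat.le_of_dvd (Int.natAbs_pos.mpr hne') h1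
  rw [Int.natAbs_pow] at h2
  have h3 : (b.repr (q 0) i).natAbs < 2 ^ (b.repr (q 0) i).natAbs := Nat.lt_two_pow_self
  have h4 : Int.natAbs 2 = 2 := rfl
  rw [h4] at h2
  omega

theorem mem_closure_of_addSubgroup {A : Type} [AddCommGroup A] (S : Set A)
    (h0 : (0 : A) ∈ S) (ha : ∀ x ∈ S, ∀ y ∈ S, x + y ∈ S) (hn : ∀ x ∈ S, -x ∈ S) {x : A}
    (hx : x ∈ AddSubgroup.closure S) : x ∈ S := by
  induction hx using AddSubgroup.closure_induction with
  | mem x hx => exact hx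
  | zero => exact h0
  | add x y _ _ h1 h2 => exact ha x h1 y h2
  | neg x _ h => exact hn x h

theorem augm_of {G : Type} [Group G] (g : G) (x : ZG G) :
    augm G (MonoidAlgebra.of ℤ G g • x) = augm G x := by
  simp [augm]

theorem fin (hG : PropGRP) (hA : PropFA) (hB : PropFB) (hC : PropFC) (hD : PropFD) :
    ∃ (G : Type) (_ : Group G) (m : ℕ)
      (P : ℕ → ModuleCat.{0} (MonoidAlgebra ℤ G))
      (d : ∀ i : ℕ, P (i + 1) →ₗ[MonoidAlgebra ℤ G] P i)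
      (ε : P 0 →+ ℤ),
      (∀ i : ℕ, Module.Finite (MonoidAlgebra ℤ G) (P i) ∧
          Module.Projective (MonoidAlgebra ℤ G) (P i)) ∧
      (∃ N : ℕ, ∀ i : ℕ, N < i → ∀ x : P i, x = 0) ∧
      (∀ g : G, ∀ x : P 0, ε (MonoidAlgebra.of ℤ G g • x) = ε x) ∧
      Function.Surjective ε ∧
      (∀ x : P 0, ε x = 0 ↔ ∃ y : P (0 + 1), d 0 y = x) ∧
      (∀ i : ℕ, ∀ x : P (i + 1), d i x = 0 ↔ ∃ y : P (i + 1 + 1), d (i + 1) y = x) ∧
      (∀ φ : P 0 →ₗ[MonoidAlgebra ℤ G] MonoidAlgebra ℤ G, φ ∘ₗ d 0 = 0 → φ = 0) ∧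
      (∀ i : ℕ, i ≠ m → ∀ φ : P (i + 1) →ₗ[MonoidAlgebra ℤ G] MonoidAlgebra ℤ G,
          φ ∘ₗ d (i + 1) = 0 →
            ∃ ψ : P i →ₗ[MonoidAlgebra ℤ G] MonoidAlgebra ℤ G, ψ ∘ₗ d i = φ) ∧
      (∀ φ : P (m + 1) →ₗ[MonoidAlgebra ℤ G] MonoidAlgebra ℤ G,
          φ ∘ₗ d (m + 1) = 0 → ∀ k : ℕ, 0 < k →
            (∃ ψ : P m →ₗ[MonoidAlgebra ℤ G] MonoidAlgebra ℤ G, ψ ∘ₗ d m = k • φ) →
            ∃ ψ : P m →ₗ[MonoidAlgebra ℤ G] MonoidAlgebra ℤ G, ψ ∘ₗ d m = φ) ∧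
      ¬ Module.Free ℤ
          (↥(AddSubgroup.closure
              {φ : P (m + 1) →ₗ[MonoidAlgebra ℤ G] MonoidAlgebra ℤ G | φ ∘ₗ d (m + 1) = 0}) ⧸
            (AddSubgroup.closure
              {φ : P (m + 1) →ₗ[MonoidAlgebra ℤ G] MonoidAlgebra ℤ G |
                ∃ ψ : P m →ₗ[MonoidAlgebra ℤ G] MonoidAlgebra ℤ G, ψ ∘ₗ d m = φ}).addSubgroupOf
              (AddSubgroup.closure
                {φ : P (m + 1) →ₗ[MonoidAlgebra ℤ G] MonoidAlgebra ℤ G |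
                  φ ∘ₗ d (m + 1) = 0})) := by
  obtain ⟨G, _, s, t, hGD⟩ := hG
  obtain ⟨a0, a1, a2, a3⟩ := hA G s t hGD
  obtain ⟨b0, b1, b2⟩ := hB G s t hGD
  have hc := hC G s t hGD
  obtain ⟨φ, hφ1, hφ2⟩ := hD G s t hGD
  refine ⟨G, inferInstance, 2, PP G, dd s t, augm G, ?_, ⟨3, ?_⟩, ?_, ?_, a0, ?_, b0, ?_, ?_, ?_⟩
  · intro i
    match i with
    | 0 => exact ⟨inferInstanceAs (Module.Finite (ZG G) (ZG G)),
        inferInstanceAs (Module.Projective (ZG G) (ZG G))⟩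
    | 1 => exact ⟨inferInstanceAs (Module.Finite (ZG G) ((Fin 10 → ZG G) × ZG G)),
        inferInstanceAs (Module.Projective (ZG G) ((Fin 10 → ZG G) × ZG G))⟩
    | 2 => exact ⟨inferInstanceAs (Module.Finite (ZG G) ((Fin 26 → ZG G) × (Fin 4 → ZG G))),
        inferInstanceAs (Module.Projective (ZG G) ((Fin 26 → ZG G) × (Fin 4 → ZG G)))⟩
    | 3 => exact ⟨inferInstanceAs (Module.Finite (ZG G) ((Fin 16 → ZG G) × (Fin 4 → ZG G))),
        inferInstanceAs (Module.Projective (ZG G) ((Fin 16 → ZG G) × (Fin 4 → ZG G)))⟩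
    | n + 4 => exact ⟨inferInstanceAs (Module.Finite (ZG G) PUnit),
        inferInstanceAs (Module.Projective (ZG G) PUnit)⟩
  · intro i hi x
    match i, hi, x with
    | n + 4, _, x => exact Subsingleton.elim (α := PUnit) x 0
  · exact fun g x => augm_of g x
  · intro n
    refine ⟨n • (1 : ZG G), ?_⟩
    have h1 : augm G (1 : ZG G) = 1 := by
      change (MonoidAlgebra.lift ℤ ℤ G (1 : G →* ℤ)) 1 = 1
      exact map_one _
    have h2 : augm G (n • (1 : ZG G)) = n • augm G 1 := map_zsmul _ _ _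
    exact h2.trans (by rw [h1]; simp)
  · intro i
    match i with
    | 0 => exact a1
    | 1 => exact a2
    | 2 =>
      intro x
      constructor
      · intro hx
        exact ⟨PUnit.unit, (a3 x hx).symm⟩
      · rintro ⟨y, rfl⟩
        exact map_zero (d2 s t)
    | n + 3 =>
      intro x
      constructor
      · intro _
        exact ⟨PUnit.unit, Subsingleton.elim (α := PUnit) _ _⟩
      · intro _
        rfl
  · intro i hi
    match i, hi with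
    | 0, _ => exact b1
    | 1, _ => exact b2
    | n + 3, _ =>
      intro ψ _
      refine ⟨0, ?_⟩
      ext x
      have : x = 0 := Subsingleton.elim (α := PUnit) x 0
      rw [this, map_zero, map_zero]
  · intro ψ _ k hk h
    exact hc ψ k hk h
  · intro hfree
    -- every map `P 3 → ZG` is a cocycle
    have hcoc : ∀ ψ : PP G (2 + 1) →ₗ[MonoidAlgebra ℤ G] MonoidAlgebra ℤ G,
        ψ ∘ₗ dd s t (2 + 1) = 0 := by
      intro ψ
      have : dd s t (2 + 1) = 0 := rfl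
      rw [this, LinearMap.comp_zero]
    have hmem : ∀ ψ : PP G (2 + 1) →ₗ[MonoidAlgebra ℤ G] MonoidAlgebra ℤ G,
        ψ ∈ AddSubgroup.closure
          {φ : PP G (2 + 1) →ₗ[MonoidAlgebra ℤ G] MonoidAlgebra ℤ G |
            φ ∘ₗ dd s t (2 + 1) = 0} :=
      fun ψ => AddSubgroup.subset_closure (hcoc ψ)
    set K := AddSubgroup.closure
          {φ : PP G (2 + 1) →ₗ[MonoidAlgebra ℤ G] MonoidAlgebra ℤ G |
            φ ∘ₗ dd s t (2 + 1) = 0} with hK
    set I := AddSubgroup.closure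
              {φ : PP G (2 + 1) →ₗ[MonoidAlgebra ℤ G] MonoidAlgebra ℤ G |
                ∃ ψ : PP G 2 →ₗ[MonoidAlgebra ℤ G] MonoidAlgebra ℤ G, ψ ∘ₗ dd s t 2 = φ} with hI
    have hIiff : ∀ χ, χ ∈ I → ∃ ψ : PP G 2 →ₗ[MonoidAlgebra ℤ G] MonoidAlgebra ℤ G,
        ψ ∘ₗ dd s t 2 = χ := by
      intro χ hχ
      refine mem_closure_of_addSubgroup
        {φ : PP G (2 + 1) →ₗ[MonoidAlgebra ℤ G] MonoidAlgebra ℤ G |
                ∃ ψ : PP G 2 →ₗ[MonoidAlgebra ℤ G] MonoidAlgebra ℤ G, ψ ∘ₗ dd s t 2 = φ}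
        ⟨0, LinearMap.zero_comp _⟩ ?_ ?_ hχ
      · rintro _ ⟨ψ, rfl⟩ _ ⟨ψ', rfl⟩
        exact ⟨ψ + ψ', LinearMap.add_comp _ _ _⟩
      · rintro _ ⟨ψ, rfl⟩
        exact ⟨-ψ, LinearMap.neg_comp _ _⟩
    let q : ℕ → (K ⧸ I.addSubgroupOf K) := fun j => QuotientAddGroup.mk ⟨φ j, hmem (φ j)⟩
    have hq : ∀ j, q j = 2 • q (j + 1) := by
      intro j
      obtain ⟨ψ, hψ⟩ := hφ1 j
      have : q j - 2 • q (j + 1) = 0 := by
        change (QuotientAddGroup.mk ((⟨φ j, hmem (φ j)⟩ : K) - 2 • (⟨φ (j + 1), hmem (φ (j + 1))⟩ : K))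
          : K ⧸ I.addSubgroupOf K) = _
        rw [QuotientAddGroup.eq_zero_iff, AddSubgroup.mem_addSubgroupOf]
        exact AddSubgroup.subset_closure ⟨ψ, hψ⟩
      exact sub_eq_zero.mp this
    have h0 := free_div q hq
    have h1 : (QuotientAddGroup.mk ⟨φ 0, hmem (φ 0)⟩ : K ⧸ I.addSubgroupOf K) = 0 := h0
    rw [QuotientAddGroup.eq_zero_iff, AddSubgroup.mem_addSubgroupOf] at h1
    exact hφ2 (hIiff _ h1)

end Pool.Agent.W326.DU
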