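import Pool.Agent.W326.DU.Stm

set_option autoImplicit false

namespace Pool.Agent.W326.DU

theorem raag_hom_ext {W : Type} {ad : W → W → Prop} {K : Type} [Group K] {f g : RAAG ad →* K}
    (h : ∀ w, f (gen ad w) = g (gen ad w)) : f = g :=
  PresentedGroup.ext h

open Classical in
theorem sub_th : PropSUB := by
  intro W W' ad ad' f hf had
  have hF : ∀ r ∈ rels ad', FreeGroup.lift (fun w => gen ad (f w)) r = 1 := by
    rintro r ⟨a, b, hab, rfl⟩
    simp only [map_mul, map_inv, FreeGroup.lift_apply_of]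
    have : PresentedGroup.mk (rels ad) (FreeGroup.of (f a) * FreeGroup.of (f b) *
        (FreeGroup.of (f a))⁻¹ * (FreeGroup.of (f b))⁻¹) = 1 :=
      PresentedGroup.one_of_mem ⟨f a, f b, (had a b).1 hab, rfl⟩
    simpa [gen, PresentedGroup.of] using this
  let F : RAAG ad' →* RAAG ad := PresentedGroup.toGroup hF
  have hFg : ∀ w, F (gen ad' w) = gen ad (f w) := fun w => PresentedGroup.toGroup.of hF
  let ρ : W → RAAG ad' := fun w => if h : ∃ w', f w' = w then gen ad' h.choose else 1
  have hρf : ∀ w, ρ (f w) = gen ad' w := by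
    intro w
    have h : ∃ w', f w' = f w := ⟨w, rfl⟩
    simp only [ρ, dif_pos h]
    rw [hf h.choose_spec]
  have hρ : ∀ r ∈ rels ad, FreeGroup.lift ρ r = 1 := by
    rintro r ⟨a, b, hab, rfl⟩
    simp only [map_mul, map_inv, FreeGroup.lift_apply_of]
    by_cases ha : ∃ w', f w' = a
    · by_cases hb : ∃ w', f w' = b
      · obtain ⟨a', rfl⟩ := ha
        obtain ⟨b', rfl⟩ := hb
        rw [hρf, hρf]
        have : PresentedGroup.mk (rels ad') (FreeGroup.of a' * FreeGroup.of b' *
            (FreeGroup.of a')⁻¹ * (FreeGroup.of b')⁻¹) = 1 :=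
          PresentedGroup.one_of_mem ⟨a', b', (had a' b').2 hab, rfl⟩
        simpa [gen, PresentedGroup.of] using this
      · have : ρ b = 1 := by simp only [ρ, dif_neg hb]
        rw [this]; group
    · have : ρ a = 1 := by simp only [ρ, dif_neg ha]
      rw [this]; group
  let r : RAAG ad →* RAAG ad' := PresentedGroup.toGroup hρ
  have hr : ∀ w, r (gen ad w) = ρ w := fun w => PresentedGroup.toGroup.of hρ
  refine ⟨F, hFg, ?_⟩
  have hcomp : r.comp F = MonoidHom.id _ := raag_hom_ext fun w => by
    rw [MonoidHom.comp_apply, hFg, hr, hρf]; rfl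
  intro x y hxy
  have := congrArg r hxy
  rw [← MonoidHom.comp_apply, ← MonoidHom.comp_apply, hcomp] at this
  exact this

end Pool.Agent.W326.DU
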