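import Mathlib

/-!
# A duality group whose dualizing module is not free abelian (MP_9fa67c_al, S02505)

Definitions.  The group `G` is an HNN extension of the right-angled Artin group of a flag
triangulated Möbius band with 10 vertices, the stable letter identifying the RAAG of the
boundary 4-cycle with the RAAG of a core 4-cycle.
-/

set_option autoImplicit false

namespace Pool.Agent.W326.DU

/-- The sum of the images of the `R s`, `s ∈ S`. -/
def Im {V M : Type} [AddCommGroup M] (R : V → M →+ M) (S : Set V) : AddSubgroup M :=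
  ⨆ s ∈ S, (R s).range

/-- A family of commuting (along `ad`) endomorphisms with the regularity property `star`. -/
structure Reg {V M : Type} [AddCommGroup M] (ad : V → V → Prop) (R : V → M →+ M) : Prop where
  comm : ∀ a b, ad a b → ∀ x, R a (R b x) = R b (R a x)
  star : ∀ (S : Set V) (v : V), v ∉ S → ∀ x, R v x ∈ Im R S → x ∈ Im R {w | w ∈ S ∧ ad w v}

/-! ## The concrete graph (clique complex = flag Möbius band) -/

/-- the 26 edges (sorted pairs) -/
def eL : Fin 26 → Fin 10 × Fin 10 :=
  ![(0, 1), (0, 3), (0, 5), (0, 6), (0, 8), (1, 2), (1, 4), (1, 8), (1, 9), (2, 3), (2, 6),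
    (2, 7), (2, 9), (3, 4), (3, 5), (3, 7), (4, 5), (4, 7), (4, 8), (4, 9), (5, 6), (5, 9),
    (6, 7), (6, 8), (6, 9), (7, 8)]

/-- the 16 triangles (sorted triples) -/
def tL : Fin 16 → Fin 10 × Fin 10 × Fin 10 :=
  ![(0, 1, 8), (0, 3, 5), (0, 5, 6), (0, 6, 8), (1, 2, 9), (1, 4, 8), (1, 4, 9), (2, 3, 7),
    (2, 6, 7), (2, 6, 9), (3, 4, 5), (3, 4, 7), (4, 5, 9), (4, 7, 8), (5, 6, 9), (6, 7, 8)]

/-- adjacency -/
def adj (a b : Fin 10) : Prop := ∃ i, eL i = (a, b) ∨ eL i = (b, a)

instance : DecidableRel adj := fun a b => by unfold adj; infer_instance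

/-- the boundary 4-cycle -/
def mm : Fin 4 → Fin 10 := ![0, 1, 2, 3]
/-- the core 4-cycle -/
def pp : Fin 4 → Fin 10 := ![4, 5, 6, 7]

/-- adjacency in the 4-cycle -/
def adj4 (k l : Fin 4) : Prop := l = k + 1 ∨ k = l + 1

instance : DecidableRel adj4 := fun a b => by unfold adj4; infer_instance

/-- The cocycle `κ` generating `H^1` of the Möbius band: sum `2` along `mm`, sum `1` along `pp`. -/
def kap (a b : Fin 10) : ℤ :=
  if (a, b) ∈ [((1 : Fin 10), (2 : Fin 10)), (5, 6), (3, 0), (5, 0), (9, 2), (9, 6)] then 1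
  else if (b, a) ∈ [((1 : Fin 10), (2 : Fin 10)), (5, 6), (3, 0), (5, 0), (9, 2), (9, 6)] then -1
  else 0

/-- sign of the ordered pair `(a,b)` with respect to the edge `i` -/
def sg2 (i : Fin 26) (a b : Fin 10) : ℤ :=
  (if eL i = (a, b) then 1 else 0) - (if eL i = (b, a) then 1 else 0)

/-- sign of the ordered triple `(a,b,c)` with respect to the triangle `j` -/
def sg3 (j : Fin 16) (a b c : Fin 10) : ℤ :=
  (if tL j = (a, b, c) then 1 else 0) - (if tL j = (a, c, b) then 1 else 0)
  + (if tL j = (b, c, a) then 1 else 0) - (if tL j = (b, a, c) then 1 else 0)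
  + (if tL j = (c, a, b) then 1 else 0) - (if tL j = (c, b, a) then 1 else 0)

/-- the alternating function attached to an edge function -/
def alt2 {M : Type} [AddCommGroup M] (w : Fin 26 → M) (a b : Fin 10) : M := ∑ i, sg2 i a b • w i

/-- the alternating function attached to a triangle function -/
def alt3 {M : Type} [AddCommGroup M] (w : Fin 16 → M) (a b c : Fin 10) : M :=
  ∑ j, sg3 j a b c • w j

/-! ### Chain maps (for a family `R`, thought of as `x ↦ x (s_v - 1)`, and `T`, `x ↦ x t`) -/

section chain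
variable {M : Type} [AddCommGroup M] (R : Fin 10 → M →+ M) (T : M →+ M)

/-- `∂₁` of the graph part -/
def c1 (x : Fin 10 → M) : M := ∑ v, R v (x v)
/-- `∂₂` of the graph part -/
def c2 (y : Fin 26 → M) (b : Fin 10) : M := ∑ a, R a (alt2 y a b)
/-- `∂₃` of the graph part -/
def c3 (z : Fin 16 → M) (i : Fin 26) : M := ∑ a, R a (alt3 z a (eL i).1 (eL i).2)
/-- `∂₁` of the cycle part -/
def k1 (w : Fin 4 → M) : M := ∑ k, R (pp k) (w k)
/-- `∂₂` of the cycle part (the edge `k` of the 4-cycle goes from `k` to `k+1`) -/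
def k2 (u : Fin 4 → M) (k : Fin 4) : M :=
  R (pp (k - 1)) (u (k - 1)) - R (pp (k + 1)) (u k)
/-- the chain map from the cycle part to the graph part, in degree 1 -/
def f1 (w : Fin 4 → M) (v : Fin 10) : M :=
  ∑ k, ((if mm k = v then T (w k) else 0) - (if pp k = v then w k else 0))
/-- the chain map from the cycle part to the graph part, in degree 2 -/
def f2 (u : Fin 4 → M) (i : Fin 26) : M :=
  ∑ k, (sg2 i (mm k) (mm (k + 1)) • T (u k) - sg2 i (pp k) (pp (k + 1)) • u k)

end chain

/-! ### Cochain maps (for a family `S`, thought of as `x ↦ (s_v - 1) x`, and `T`, `x ↦ t x`) -/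

section cochain
variable {M : Type} [AddCommGroup M] (S : Fin 10 → M →+ M) (T : M →+ M)

/-- coboundary of 1-cochains on the graph part -/
def e1 (x : Fin 10 → M) (i : Fin 26) : M := S (eL i).1 (x (eL i).2) - S (eL i).2 (x (eL i).1)
/-- coboundary of 2-cochains on the graph part -/
def e2 (c : Fin 26 → M) (j : Fin 16) : M :=
  S (tL j).1 (alt2 c (tL j).2.1 (tL j).2.2) - S (tL j).2.1 (alt2 c (tL j).1 (tL j).2.2)
    + S (tL j).2.2 (alt2 c (tL j).1 (tL j).2.1)
/-- coboundary of the 1-cochain `(x, y)`, cycle part -/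
def g1 (x : Fin 10 → M) (y : M) (k : Fin 4) : M := T (x (mm k)) - x (pp k) - S (pp k) y
/-- coboundary of the 2-cochain `(c, b)`, cycle part -/
def g2 (c : Fin 26 → M) (b : Fin 4 → M) (k : Fin 4) : M :=
  T (alt2 c (mm k) (mm (k + 1))) - alt2 c (pp k) (pp (k + 1))
    - (S (pp k) (b (k + 1)) - S (pp (k + 1)) (b k))

end cochain

/-! ## Group theory -/

/-- relators of a right-angled Artin group -/
def rels {W : Type} (ad : W → W → Prop) : Set (FreeGroup W) :=
  {r | ∃ a b, ad a b ∧ r = FreeGroup.of a * FreeGroup.of b * (FreeGroup.of a)⁻¹ * (FreeGroup.of b)⁻¹}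

/-- the right-angled Artin group of the graph `(W, ad)` -/
abbrev RAAG {W : Type} (ad : W → W → Prop) : Type := PresentedGroup (rels ad)

/-- the generators of the right-angled Artin group -/
def gen {W : Type} (ad : W → W → Prop) (w : W) : RAAG ad := PresentedGroup.of w

section ideals
variable (R : Type) [CommRing R] {H : Type} [Group H]

/-- the left ideal of the group ring generated by the `s - 1`, `s ∈ S` -/
noncomputable def IL (S : Set H) : Submodule (MonoidAlgebra R H) (MonoidAlgebra R H) :=
  Submodule.span (MonoidAlgebra R H) ((fun s => MonoidAlgebra.of R H s - 1) '' S)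

/-- `x (v - 1) ∈ I_S → x ∈ I_L` -/
def StarP (S : Set H) (v : H) (L : Set H) : Prop :=
  ∀ x : MonoidAlgebra R H, x * (MonoidAlgebra.of R H v - 1) ∈ IL R S → x ∈ IL R L

/-- right multiplication by `a`, as an additive map -/
noncomputable def rm (a : MonoidAlgebra R H) : MonoidAlgebra R H →+ MonoidAlgebra R H := AddMonoidHom.mulRight a
/-- left multiplication by `a`, as an additive map -/
noncomputable def lm (a : MonoidAlgebra R H) : MonoidAlgebra R H →+ MonoidAlgebra R H := AddMonoidHom.mulLeft a

end ideals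

/-! ## The group data -/

section data
variable (R : Type) [CommRing R] {G : Type} [Group G]

/-- right multiplications by `s v - 1` -/
noncomputable def Rf (s : Fin 10 → G) (v : Fin 10) : MonoidAlgebra R G →+ MonoidAlgebra R G :=
  rm R (MonoidAlgebra.of R G (s v) - 1)

/-- left multiplications by `s v - 1` -/
noncomputable def Lf (s : Fin 10 → G) (v : Fin 10) : MonoidAlgebra R G →+ MonoidAlgebra R G :=
  lm R (MonoidAlgebra.of R G (s v) - 1)

/-- What we need from the group `G` (elements `s v`, `v : Fin 10`, and `t`). -/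
structure GD (s : Fin 10 → G) (t : G) : Prop where
  /-- the stable letter -/
  conj : ∀ k, t * s (mm k) = s (pp k) * t
  reg : ∀ (R : Type) [CommRing R], Reg adj (Rf R s)
  star_t : ∀ (R : Type) [CommRing R] (x : MonoidAlgebra R G),
    x * MonoidAlgebra.of R G t - x ∈ Im (Rf R s) Set.univ → x ∈ Im (Rf R s) (Set.range pp)
  gen : Subgroup.closure (Set.range s ∪ {t}) = ⊤
  inf : ∀ n : ℕ, 0 < n → t ^ n ≠ 1

end data

/-! ## The resolution -/

section res
variable {G : Type} [Group G]

/-- the integral group ring -/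
abbrev ZG (G : Type) [Group G] : Type := MonoidAlgebra ℤ G

theorem alt2_smul (a : ZG G) (y : Fin 26 → ZG G) (u v : Fin 10) :
    alt2 (a • y) u v = a • alt2 y u v := by
  simp only [alt2, Pi.smul_apply, Finset.smul_sum]
  exact Finset.sum_congr rfl fun i _ => by rw [smul_comm]

theorem alt2_add {M : Type} [AddCommGroup M] (x y : Fin 26 → M) (u v : Fin 10) :
    alt2 (x + y) u v = alt2 x u v + alt2 y u v := by
  simp only [alt2, Pi.add_apply, smul_add, Finset.sum_add_distrib]

theorem alt3_smul (a : ZG G) (y : Fin 16 → ZG G) (u v w : Fin 10) :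
    alt3 (a • y) u v w = a • alt3 y u v w := by
  simp only [alt3, Pi.smul_apply, Finset.smul_sum]
  exact Finset.sum_congr rfl fun i _ => by rw [smul_comm]

theorem alt3_add {M : Type} [AddCommGroup M] (x y : Fin 16 → M) (u v w : Fin 10) :
    alt3 (x + y) u v w = alt3 x u v w + alt3 y u v w := by
  simp only [alt3, Pi.add_apply, smul_add, Finset.sum_add_distrib]

theorem rm_smul (b a x : ZG G) : rm ℤ b (a • x) = a • rm ℤ b x := by
  simp only [rm, AddMonoidHom.coe_mulRight, smul_eq_mul, mul_assoc]

theorem Rf_smul (s : Fin 10 → G) (v : Fin 10) (a x : ZG G) :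
    Rf ℤ s v (a • x) = a • Rf ℤ s v x := rm_smul _ _ _

/-- right multiplication by `t` -/
noncomputable def Tr (t : G) : ZG G →+ ZG G := rm ℤ (MonoidAlgebra.of ℤ G t)

theorem Tr_smul (t : G) (a x : ZG G) : Tr t (a • x) = a • Tr t x := rm_smul _ _ _

/-- `∂₁` of the resolution -/
noncomputable def d0 (s : Fin 10 → G) (t : G) : ((Fin 10 → ZG G) × ZG G) →ₗ[ZG G] ZG G where
  toFun p := c1 (Rf ℤ s) p.1 + (Tr t p.2 - p.2)
  map_add' p q := by
    simp only [c1, Prod.fst_add, Prod.snd_add, Pi.add_apply, map_add, Finset.sum_add_distrib]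
    abel
  map_smul' a p := by
    simp only [c1, Prod.smul_fst, Prod.smul_snd, Pi.smul_apply, Rf_smul, Tr_smul,
      RingHom.id_apply, smul_add, smul_sub, Finset.smul_sum]

/-- `∂₂` of the resolution -/
noncomputable def d1 (s : Fin 10 → G) (t : G) :
    ((Fin 26 → ZG G) × (Fin 4 → ZG G)) →ₗ[ZG G] ((Fin 10 → ZG G) × ZG G) where
  toFun p := (fun b => c2 (Rf ℤ s) p.1 b + f1 (Tr t) p.2 b, - k1 (Rf ℤ s) p.2)
  map_add' p q := by
    refine Prod.ext (funext fun b => ?_) ?_
    · simp only [c2, f1, Prod.fst_add, Prod.snd_add, Pi.add_apply, alt2_add, map_add,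
        Finset.sum_add_distrib]
      have : ∀ k : Fin 4, ((if mm k = b then Tr t (p.2 k) + Tr t (q.2 k) else 0)
          - (if pp k = b then p.2 k + q.2 k else 0))
          = ((if mm k = b then Tr t (p.2 k) else 0) - (if pp k = b then p.2 k else 0))
          + ((if mm k = b then Tr t (q.2 k) else 0) - (if pp k = b then q.2 k else 0)) := by
        intro k; split_ifs <;> abel
      simp only [this, Finset.sum_add_distrib]
      abel
    · simp only [k1, Prod.snd_add, Pi.add_apply, map_add, Finset.sum_add_distrib]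
      abel
  map_smul' a p := by
    refine Prod.ext (funext fun b => ?_) ?_
    · simp only [c2, f1, Prod.smul_fst, Prod.smul_snd, Pi.smul_apply, alt2_smul, Rf_smul, Tr_smul,
        RingHom.id_apply, smul_add, Finset.smul_sum]
      congr 1
      refine Finset.sum_congr rfl fun k _ => ?_
      split_ifs <;> simp [mul_sub]
    · simp only [k1, Prod.smul_snd, Pi.smul_apply, Rf_smul, RingHom.id_apply,
        Finset.smul_sum, smul_neg]

/-- `∂₃` of the resolution -/
noncomputable def d2 (s : Fin 10 → G) (t : G) :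
    ((Fin 16 → ZG G) × (Fin 4 → ZG G)) →ₗ[ZG G] ((Fin 26 → ZG G) × (Fin 4 → ZG G)) where
  toFun p := (fun i => c3 (Rf ℤ s) p.1 i + f2 (Tr t) p.2 i, fun k => - k2 (Rf ℤ s) p.2 k)
  map_add' p q := by
    refine Prod.ext (funext fun b => ?_) (funext fun k => ?_)
    · simp only [c3, f2, Prod.fst_add, Prod.snd_add, Pi.add_apply, alt3_add, map_add,
        Finset.sum_add_distrib, smul_add, Finset.sum_sub_distrib]
      abel
    · simp only [k2, Prod.snd_add, Pi.add_apply, map_add]
      abel
  map_smul' a p := by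
    refine Prod.ext (funext fun b => ?_) (funext fun k => ?_)
    · simp only [c3, f2, Prod.smul_fst, Prod.smul_snd, Pi.smul_apply, alt3_smul, Rf_smul, Tr_smul,
        RingHom.id_apply, smul_add, Finset.smul_sum, smul_sub]
      congr 1
      refine Finset.sum_congr rfl fun k _ => ?_
      rw [smul_comm a, smul_comm a]
    · simp only [k2, Prod.smul_snd, Pi.smul_apply, Rf_smul, RingHom.id_apply, smul_neg, smul_sub]

end res

end Pool.Agent.W326.DU
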