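import Pool.Agent.W326.DU.Defs

/-!
# Statements of the parts (MP_9fa67c_al)

Each `def Prop…` is proved in its own module.  See the subtask specs for complete written proofs.
-/

set_option autoImplicit false

namespace Pool.Agent.W326.DU

/-! ### Alternating functions -/

/-- alternating 2-functions supported on the edges inside `S` -/
def IsAlt2 {V M : Type} [AddCommGroup M] (ad : V → V → Prop) (S : Set V) (y : V → V → M) : Prop :=
  (∀ a b, y a b = - y b a) ∧ ∀ a b, ¬ (a ∈ S ∧ b ∈ S ∧ ad a b) → y a b = 0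

/-- alternating 3-functions supported on the triangles inside `S` -/
def IsAlt3 {V M : Type} [AddCommGroup M] (ad : V → V → Prop) (S : Set V)
    (z : V → V → V → M) : Prop :=
  (∀ a b c, z a b c = - z b a c) ∧ (∀ a b c, z a b c = - z a c b) ∧
  ∀ a b c, ¬ (a ∈ S ∧ b ∈ S ∧ c ∈ S ∧ ad a b ∧ ad b c ∧ ad a c) → z a b c = 0

/-- **EX**: exactness of the Salvetti type complex of a `K₄`-free graph from `Reg`. -/
def PropEX : Prop := ∀ (V M : Type) [Fintype V] [AddCommGroup M] (ad : V → V → Prop)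
  (R : V → M →+ M),
  (∀ a b, ad a b → ad b a) → (∀ a, ¬ ad a a) →
  (∀ a b c d, ad a b → ad a c → ad a d → ad b c → ad b d → ¬ ad c d) → Reg ad R →
  ∀ S : Finset V,
   (∀ x : V → M, (∀ v, v ∉ S → x v = 0) → ∑ v, R v (x v) = 0 →
      ∃ y, IsAlt2 ad (S : Set V) y ∧ ∀ b, x b = ∑ a, R a (y a b)) ∧
   (∀ y : V → V → M, IsAlt2 ad (S : Set V) y → (∀ b, ∑ a, R a (y a b) = 0) →
      ∃ z, IsAlt3 ad (S : Set V) z ∧ ∀ b c, y b c = ∑ a, R a (z a b c)) ∧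
   (∀ z : V → V → V → M, IsAlt3 ad (S : Set V) z → (∀ b c, ∑ a, R a (z a b c) = 0) →
      ∀ a b c, z a b c = 0)

/-- **RESA**: exactness of the total complex (abstract form, from EX). -/
def PropRESA : Prop := ∀ (M : Type) [AddCommGroup M] (R : Fin 10 → M →+ M) (T : M →+ M),
  Reg adj R → (∀ k x, R (mm k) (T x) = T (R (pp k) x)) →
  (∀ x, T x - x ∈ Im R Set.univ → x ∈ Im R (Set.range pp)) →
  (∀ (x : Fin 10 → M) (m : M), c1 R x + (T m - m) = 0 →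
      ∃ (y : Fin 26 → M) (w : Fin 4 → M), (∀ b, c2 R y b + f1 T w b = x b) ∧ - k1 R w = m) ∧
  (∀ (y : Fin 26 → M) (w : Fin 4 → M), (∀ b, c2 R y b + f1 T w b = 0) → k1 R w = 0 →
      ∃ (z : Fin 16 → M) (u : Fin 4 → M), (∀ i, c3 R z i + f2 T u i = y i) ∧
        ∀ k, - k2 R u k = w k) ∧
  (∀ (z : Fin 16 → M) (u : Fin 4 → M), (∀ i, c3 R z i + f2 T u i = 0) → (∀ k, k2 R u k = 0) →
      (∀ j, z j = 0) ∧ ∀ k, u k = 0)

/-- **DD**: `∂ ∘ ∂ = 0` in the total complex (abstract form). -/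
def PropDD : Prop := ∀ (M : Type) [AddCommGroup M] (R : Fin 10 → M →+ M) (T : M →+ M),
  (∀ a b, adj a b → ∀ x, R a (R b x) = R b (R a x)) →
  (∀ k x, R (mm k) (T x) = T (R (pp k) x)) →
  (∀ (y : Fin 26 → M) (w : Fin 4 → M),
      c1 R (fun b => c2 R y b + f1 T w b) + (T (- k1 R w) - (- k1 R w)) = 0) ∧
  (∀ (z : Fin 16 → M) (u : Fin 4 → M),
      (∀ b, c2 R (fun i => c3 R z i + f2 T u i) b + f1 T (fun k => - k2 R u k) b = 0) ∧
      k1 R (fun k => - k2 R u k) = 0)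

/-- **P3**: `H¹` of the Möbius band with arbitrary coefficients. -/
def PropP3 : Prop := ∀ (M : Type) [AddCommGroup M] (n : Fin 26 → M),
  (∀ j, alt2 n (tL j).2.1 (tL j).2.2 - alt2 n (tL j).1 (tL j).2.2
      + alt2 n (tL j).1 (tL j).2.1 = 0) →
  ∃ (r : Fin 10 → M) (m : M),
    ∀ i, n i = kap (eL i).1 (eL i).2 • m + (r (eL i).2 - r (eL i).1)

/-- **NFP**: normal form of the 2-cocycles on the graph part. -/
def PropNFP : Prop := ∀ (M : Type) [AddCommGroup M] (S : Fin 10 → M →+ M), Reg adj S →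
  ∀ c : Fin 26 → M, (∀ j, e2 S c j = 0) →
  ∃ (x : Fin 10 → M) (m : M), ∀ i,
    c i = kap (eL i).1 (eL i).2 • S (eL i).1 (S (eL i).2 m) + e1 S x i

/-- **COHA**: vanishing of `H⁰` and `H¹`. -/
def PropCOHA : Prop := ∀ (M : Type) [AddCommGroup M] (S : Fin 10 → M →+ M) (T : M →+ M),
  Reg adj S → (∀ k x, T (S (mm k) x) = S (pp k) (T x)) →
  (∀ v x, S v x = 0 → x = 0) ∧
  (∀ (x : Fin 10 → M) (y : M), (∀ i, e1 S x i = 0) → (∀ k, g1 S T x y k = 0) →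
      ∃ m, (∀ v, x v = S v m) ∧ y = T m - m)

/-- **COHB**: vanishing of `H²`. -/
def PropCOHB : Prop := ∀ (M : Type) [AddCommGroup M] (S : Fin 10 → M →+ M) (T : M →+ M),
  Reg adj S → (∀ k x, T (S (mm k) x) = S (pp k) (T x)) → (∀ x, T x + T x = x → x = 0) →
  (∀ (c : Fin 26 → M) (b : Fin 4 → M), (∀ j, e2 S c j = 0) → (∀ k, g2 S T c b k = 0) →
      ∃ (x : Fin 10 → M) (y : M), (∀ i, c i = e1 S x i) ∧ ∀ k, b k = g1 S T x y k)

/-- the 3-cochain (cycle part) attached to `m` -/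
def om {M : Type} [AddCommGroup M] (S : Fin 10 → M →+ M) (m : M) (k : Fin 4) : M :=
  kap (pp k) (pp (k + 1)) • S (pp k) (S (pp (k + 1)) m)

/-- **NF1**: `om m ≡ 2 om (T m)` modulo coboundaries. -/
def PropNF1 : Prop := ∀ (M : Type) [AddCommGroup M] (S : Fin 10 → M →+ M) (T : M →+ M),
  (∀ a b, adj a b → ∀ x, S a (S b x) = S b (S a x)) →
  (∀ k x, T (S (mm k) x) = S (pp k) (T x)) →
  ∀ m, ∃ (c : Fin 26 → M) (b : Fin 4 → M), (∀ j, e2 S c j = 0) ∧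
    ∀ k, g2 S T c b k = 2 • om S (T m) k - om S m k

/-- **NF2**: if `om m` is a coboundary then `m ∈ (2T - 1) M`. -/
def PropNF2 : Prop := ∀ (M : Type) [AddCommGroup M] (S : Fin 10 → M →+ M) (T : M →+ M),
  Reg adj S → (∀ k x, T (S (mm k) x) = S (pp k) (T x)) →
  ∀ (m : M) (c : Fin 26 → M) (b : Fin 4 → M), (∀ j, e2 S c j = 0) →
    (∀ k, g2 S T c b k = om S m k) → ∃ m', 2 • T m' - m' = m

/-! ### Group theory -/

/-- **RG**: the crossed homomorphism argument in a RAAG. -/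
def PropRG : Prop := ∀ (R : Type) [CommRing R] (W : Type) (ad : W → W → Prop),
  (∀ a b, ad a b → ad b a) → (∀ a, ¬ ad a a) → ∀ v : W,
  StarP R (gen ad '' {w | w ≠ v}) (gen ad v) (gen ad '' {w | ad w v})

/-- **SUB**: RAAGs of induced subgraphs embed. -/
def PropSUB : Prop := ∀ (W W' : Type) (ad : W → W → Prop) (ad' : W' → W' → Prop) (f : W' → W),
  Function.Injective f → (∀ a b, ad' a b ↔ ad (f a) (f b)) →
  ∃ F : RAAG ad' →* RAAG ad, (∀ w, F (gen ad' w) = gen ad (f w)) ∧ Function.Injective F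

/-- **BC**: base change along an injective homomorphism. -/
def PropBC : Prop := ∀ (R : Type) [CommRing R] (H G : Type) [Group H] [Group G] (ι : H →* G),
  Function.Injective ι → ∀ (S : Set H) (v : H) (L : Set H), StarP R S v L →
  StarP R (ι '' S) (ι v) (ι '' L)

/-- **HN**: the crossed homomorphism argument in an HNN extension. -/
def PropHN : Prop := ∀ (R : Type) [CommRing R] (H : Type) [Group H] (A B : Subgroup H)
  (φ : A ≃* B),
  StarP R (Set.range (HNNExtension.of : H → HNNExtension H A B φ)) HNNExtension.t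
    ((HNNExtension.of : H → HNNExtension H A B φ) '' (B : Set H))

/-- **GRP**: existence of the group. -/
def PropGRP : Prop := ∃ (G : Type) (_ : Group G) (s : Fin 10 → G) (t : G), GD s t

/-- **LFT**: the left family is regular, and `2T - 1` is injective and not onto. -/
def PropLFT : Prop := ∀ (G : Type) [Group G] (s : Fin 10 → G) (t : G), GD s t →
  ∀ (R : Type) [CommRing R], Reg adj (Lf R s) ∧
    (∀ k x, lm R (MonoidAlgebra.of R G t) (Lf R s (mm k) x)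
        = Lf R s (pp k) (lm R (MonoidAlgebra.of R G t) x)) ∧
    (∀ x : MonoidAlgebra R G, lm R (MonoidAlgebra.of R G t) x + lm R (MonoidAlgebra.of R G t) x = x
        → x = 0)

/-- **TNU**: `1 ∉ (2t - 1) ℤG`. -/
def PropTNU : Prop := ∀ (G : Type) [Group G] (t : G), (∀ n : ℕ, 0 < n → t ^ n ≠ 1) →
  ∀ x : ZG G, 2 • (MonoidAlgebra.of ℤ G t * x) - x ≠ 1

/-- the augmentation -/
noncomputable def augm (G : Type) [Group G] : ZG G →+ ℤ :=
  (MonoidAlgebra.lift ℤ ℤ G (1 : G →* ℤ)).toRingHom.toAddMonoidHom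

/-- **AUG**: the augmentation ideal is generated by the `g - 1`, `g` in a generating set. -/
def PropAUG : Prop := ∀ (G : Type) [Group G] (X : Set G), Subgroup.closure X = ⊤ →
  ∀ x : ZG G, augm G x = 0 → x ∈ IL ℤ X

/-! ### Final parts -/

section fin
variable {G : Type} [Group G] (s : Fin 10 → G) (t : G)

/-- the modules of the resolution -/
noncomputable def PP (G : Type) [Group G] : ℕ → ModuleCat.{0} (ZG G)
  | 0 => ModuleCat.of (ZG G) (ZG G)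
  | 1 => ModuleCat.of (ZG G) ((Fin 10 → ZG G) × ZG G)
  | 2 => ModuleCat.of (ZG G) ((Fin 26 → ZG G) × (Fin 4 → ZG G))
  | 3 => ModuleCat.of (ZG G) ((Fin 16 → ZG G) × (Fin 4 → ZG G))
  | _ + 4 => ModuleCat.of (ZG G) PUnit

/-- the differentials of the resolution -/
noncomputable def dd (s : Fin 10 → G) (t : G) : ∀ i : ℕ, PP G (i + 1) →ₗ[ZG G] PP G i
  | 0 => d0 s t
  | 1 => d1 s t
  | 2 => d2 s t
  | _ + 3 => 0

end fin

/-- **FA**: the complex is a resolution. -/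
def PropFA : Prop := ∀ (G : Type) [Group G] (s : Fin 10 → G) (t : G), GD s t →
  (∀ x : ZG G, augm G x = 0 ↔ ∃ p, d0 s t p = x) ∧
  (∀ p, d0 s t p = 0 ↔ ∃ q, d1 s t q = p) ∧
  (∀ p, d1 s t p = 0 ↔ ∃ q, d2 s t q = p) ∧
  (∀ p, d2 s t p = 0 → p = 0)

/-- **FB**: `H⁰ = H¹ = H² = 0` with coefficients in the group ring. -/
def PropFB : Prop := ∀ (G : Type) [Group G] (s : Fin 10 → G) (t : G), GD s t →
  (∀ φ : ZG G →ₗ[ZG G] ZG G, φ ∘ₗ d0 s t = 0 → φ = 0) ∧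
  (∀ φ : ((Fin 10 → ZG G) × ZG G) →ₗ[ZG G] ZG G, φ ∘ₗ d1 s t = 0 →
    ∃ ψ : ZG G →ₗ[ZG G] ZG G, ψ ∘ₗ d0 s t = φ) ∧
  (∀ φ : ((Fin 26 → ZG G) × (Fin 4 → ZG G)) →ₗ[ZG G] ZG G, φ ∘ₗ d2 s t = 0 →
    ∃ ψ : ((Fin 10 → ZG G) × ZG G) →ₗ[ZG G] ZG G, ψ ∘ₗ d1 s t = φ)

/-- **FC**: `H³` is torsion-free. -/
def PropFC : Prop := ∀ (G : Type) [Group G] (s : Fin 10 → G) (t : G), GD s t →
  ∀ φ : ((Fin 16 → ZG G) × (Fin 4 → ZG G)) →ₗ[ZG G] ZG G, ∀ k : ℕ, 0 < k →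
    (∃ ψ : ((Fin 26 → ZG G) × (Fin 4 → ZG G)) →ₗ[ZG G] ZG G, ψ ∘ₗ d2 s t = k • φ) →
    ∃ ψ : ((Fin 26 → ZG G) × (Fin 4 → ZG G)) →ₗ[ZG G] ZG G, ψ ∘ₗ d2 s t = φ

/-- **FD**: a class in `H³` which is nonzero and divisible by all powers of two. -/
def PropFD : Prop := ∀ (G : Type) [Group G] (s : Fin 10 → G) (t : G), GD s t →
  ∃ φ : ℕ → (((Fin 16 → ZG G) × (Fin 4 → ZG G)) →ₗ[ZG G] ZG G),
    (∀ j, ∃ ψ : ((Fin 26 → ZG G) × (Fin 4 → ZG G)) →ₗ[ZG G] ZG G,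
        ψ ∘ₗ d2 s t = φ j - 2 • φ (j + 1)) ∧
    ¬ ∃ ψ : ((Fin 26 → ZG G) × (Fin 4 → ZG G)) →ₗ[ZG G] ZG G, ψ ∘ₗ d2 s t = φ 0

end Pool.Agent.W326.DU
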